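import Pool.Agent.Lib.MP_3cdeb8_co.Final

/-!
# The maximal mean number of cycles of a random cycle-factor

`maxMean d n` is `M_d(n)`, the largest expected number of cycles of a uniformly random
cycle-factor of a `d`-regular directed graph on `n` vertices (`Pool.Agent.Lib.MP_3cdeb8_co.Model`).

We prove `M_d(kd) = k H_d (1 + o(1))` as `d → ∞`, uniformly in `k ≥ 2`.
-/

set_option autoImplicit false

namespace Pool.Agent.Results.MP_3cdeb8_co.SharpMeanCycles

open Pool.Agent.Lib.MP_3cdeb8_co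

theorem result :
    -- `maxMean d (k * d)` is the maximum of the mean number of cycles
    (∀ d k : ℕ, IsGreatest {x : ℝ | ∃ A : Fin (k * d) → Fin (k * d) → Prop,
      Reg A d ∧ x = meanCycles A} (maxMean d (k * d))) ∧
    -- `M_d(kd) / (k H_d) → 1` as `d → ∞`, uniformly in `k ≥ 2`
    (∀ ε : ℝ, 0 < ε → ∃ D : ℕ, ∀ d : ℕ, D ≤ d → ∀ k : ℕ, 2 ≤ k →
      |maxMean d (k * d) / ((k : ℝ) * ((harmonic d : ℚ) : ℝ)) - 1| ≤ ε) := by
  refine ⟨fun d k => maxMean_greatest d k, ?_⟩
  intro ε hε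
  obtain ⟨D, hD⟩ := main_limit hε
  exact ⟨D, fun d hd k hk => hD d hd k (by omega)⟩

end Pool.Agent.Results.MP_3cdeb8_co.SharpMeanCycles
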